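import Pool.Agent.helper45.SGC.Spec
import Pool.Agent.helper38.Neg.Nondet

/-!
Row SNP of the project SGC (MP_069684_lc): 3SAT is in `NP/Poly`.
-/

set_option autoImplicit false

namespace Pool.Agent.SGC

open Finset Pool.Agent.helper38.Neg Pool.Agent.helper55.NT

/-- one literal -/
def SNP_lit {n : ℕ} (c : Cl (tv n)) (k : Fin 3) (z : Fin n ⊕ Fin (tv n) → Bool) : Bool :=
  if c.2 k = 1 then z (Sum.inr (c.1 k)) else !(z (Sum.inr (c.1 k)))

/-- the check of one clause -/
noncomputable def SNP_chk {n : ℕ} (c : Cl (tv n)) (z : Fin n ⊕ Fin (tv n) → Bool) : Bool :=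
  !(z (Sum.inl (pos c))) || anyB fun k : Fin 3 => SNP_lit c k z

/-- the verifier -/
noncomputable def SNP_ver (n : ℕ) (z : Fin n ⊕ Fin (tv n) → Bool) : Bool :=
  allB fun c : Cl (tv n) => SNP_chk c z

theorem SNP_lit_cost {n : ℕ} (c : Cl (tv n)) (k : Fin 3) : HasCost (SNP_lit c k) 1 := by
  by_cases h : c.2 k = 1
  · have e : SNP_lit c k = fun z => z (Sum.inr (c.1 k)) := by
      funext z
      unfold SNP_lit
      rw [if_pos h]
    rw [e]
    exact (HasCost.var _).mono (by omega)
  · have e : SNP_lit c k = fun z => !(z (Sum.inr (c.1 k))) := by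
      funext z
      unfold SNP_lit
      rw [if_neg h]
    rw [e]
    exact (HasCost.var (Sum.inr (c.1 k))).not

theorem SNP_chk_cost {n : ℕ} (c : Cl (tv n)) : HasCost (SNP_chk c) 9 := by
  have h1 : HasCost (fun z : Fin n ⊕ Fin (tv n) → Bool => anyB fun k : Fin 3 => SNP_lit c k z)
      (Fintype.card (Fin 3) * (1 + 1) + 1) :=
    HasCost.any (fun k z => SNP_lit c k z) 1 fun k => SNP_lit_cost c k
  have h2 := ((HasCost.var (ι := Fin n ⊕ Fin (tv n)) (Sum.inl (pos c))).not).or h1
  exact h2.mono (by simp)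

theorem SNP_card (n : ℕ) : Fintype.card (Cl (tv n)) ≤ n := by
  have h : Fintype.card (Cl (tv n)) = tv n ^ 3 * 2 ^ 3 := by
    simp [Cl, ZMod.card]
  rw [h]
  exact tv_le n

theorem SNP_ver_cost (n : ℕ) : HasCost (SNP_ver n) (10 * (n + 1)) := by
  have h := HasCost.all (fun (c : Cl (tv n)) z => SNP_chk c z) 9 fun c => SNP_chk_cost c
  refine HasCost.mono h ?_
  have h1 := SNP_card n
  omega

theorem SNP_val (z : ZMod 2) : z = 0 ∨ z = 1 := by
  revert z
  decide

theorem SNP_correct (n : ℕ) (x : Fin n → Bool) :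
    SAT3 n x ↔ ∃ y : Fin (tv n) → Bool, SNP_ver n (Sum.elim x y) = true := by
  constructor
  · rintro ⟨α, hα⟩
    refine ⟨fun i => decide (α i = 1), ?_⟩
    unfold SNP_ver
    rw [allB_iff]
    intro c
    unfold SNP_chk
    rw [Bool.or_eq_true, anyB_iff]
    by_cases h : x (pos c) = true
    · right
      obtain ⟨k, hk⟩ := hα c h
      refine ⟨k, ?_⟩
      unfold SNP_lit
      by_cases h1 : c.2 k = 1
      · rw [if_pos h1]
        simp [hk, h1]
      · rw [if_neg h1]
        simp [hk, h1]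
    · left
      simpa using h
  · rintro ⟨y, hy⟩
    unfold SNP_ver at hy
    rw [allB_iff] at hy
    refine ⟨fun i => if y i = true then 1 else 0, fun c hc => ?_⟩
    have h := hy c
    unfold SNP_chk at h
    rw [Bool.or_eq_true, anyB_iff] at h
    rcases h with h | ⟨k, hk⟩
    · rw [Sum.elim_inl, hc] at h
      exact absurd h (by simp)
    · refine ⟨k, ?_⟩
      unfold SNP_lit at hk
      by_cases h1 : c.2 k = 1
      · rw [if_pos h1, Sum.elim_inr] at hk
        show (if y (c.1 k) = true then (1 : ZMod 2) else 0) = c.2 k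
        rw [if_pos hk, h1]
      · rw [if_neg h1, Sum.elim_inr] at hk
        show (if y (c.1 k) = true then (1 : ZMod 2) else 0) = c.2 k
        have h2 : ¬ y (c.1 k) = true := by
          intro h3
          rw [h3] at hk
          exact absurd hk (by simp)
        rw [if_neg h2]
        rcases SNP_val (c.2 k) with h3 | h3
        · exact h3.symm
        · exact absurd h3 h1

theorem SNP : SNP_stmt := by
  refine ⟨10 * (Polynomial.X + 1), fun n => ?_⟩
  have hev : (10 * (Polynomial.X + 1) : Polynomial ℕ).eval n = 10 * (n + 1) := by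
    simp
  rw [hev]
  have hW : tv n ≤ 10 * (n + 1) := by
    have h1 : tv n ≤ n := Nat.findGreatest_le n
    omega
  let φ : Fin n ⊕ Fin (tv n) → Fin (n + tv n) := Sum.elim (Fin.castAdd _) (Fin.natAdd n)
  obtain ⟨L, h1, h2, h3⟩ := (SNP_ver_cost n).rename φ
  obtain ⟨C, hC⟩ := h1.toCircuit
  obtain ⟨o, ho⟩ := hC _ h3
  refine ⟨tv n, L.length, hW, h2, C, o, fun x => ?_⟩
  rw [SNP_correct]
  have hφ : ∀ y : Fin (tv n) → Bool, (Fin.append x y) ∘ φ = Sum.elim x y := by
    intro y
    funext a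
    rcases a with i | w
    · simp [φ]
    · simp [φ]
  constructor
  · rintro ⟨y, hy⟩
    refine ⟨y, ?_⟩
    rw [ho, hφ]
    exact hy
  · rintro ⟨y, hy⟩
    rw [ho, hφ] at hy
    exact ⟨_, hy⟩

end Pool.Agent.SGC
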